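import Pool.Agent.Shared.H27.Tableau

set_option autoImplicit false

namespace Pool.Agent.Shared.H27

open Turing Turing.TM2 Function

section Micro

variable {K : Type} [DecidableEq K] {Γ : K → Type} {Λ σ : Type}

/-- micro-configurations: the statement still to run, the state and the stacks -/
abbrev MCfg (Γ : K → Type) (Λ σ : Type) := Option (Stmt Γ Λ σ) × σ × (∀ k, List (Γ k))

/-- one primitive action -/
def mstep (M : Λ → Stmt Γ Λ σ) : MCfg Γ Λ σ → MCfg Γ Λ σ
  | (none, v, S) => (none, v, S)
  | (some (.push k f q), v, S) => (some q, v, update S k (f v :: S k))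
  | (some (.peek k f q), v, S) => (some q, f v (S k).head?, S)
  | (some (.pop k f q), v, S) => (some q, f v (S k).head?, update S k (S k).tail)
  | (some (.load a q), v, S) => (some q, a v, S)
  | (some (.branch f q₁ q₂), v, S) => (some (cond (f v) q₁ q₂), v, S)
  | (some (.goto f), v, S) => (some (M (f v)), v, S)
  | (some .halt, v, S) => (none, v, S)

/-- configurations as micro-configurations -/
def emb (M : Λ → Stmt Γ Λ σ) (c : Cfg Γ Λ σ) : MCfg Γ Λ σ := (c.l.map M, c.var, c.stk)

/-- number of primitive actions a statement can take -/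
def depth : Stmt Γ Λ σ → ℕ
  | .push _ _ q => depth q + 1
  | .peek _ _ q => depth q + 1
  | .pop _ _ q => depth q + 1
  | .load _ q => depth q + 1
  | .branch _ q₁ q₂ => max (depth q₁) (depth q₂) + 1
  | .goto _ => 1
  | .halt => 1

theorem mstep_stepAux (M : Λ → Stmt Γ Λ σ) (q : Stmt Γ Λ σ) (v : σ) (S : ∀ k, List (Γ k)) :
    ∃ n ≤ depth q, (mstep M)^[n] (some q, v, S) = emb M (stepAux q v S) := by
  induction q generalizing v S with
  | push k f q ih =>
    obtain ⟨n, hn, h⟩ := ih v (update S k (f v :: S k))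
    exact ⟨n + 1, by simp [depth, hn], by rw [iterate_succ_apply]; simpa [mstep] using h⟩
  | peek k f q ih =>
    obtain ⟨n, hn, h⟩ := ih (f v (S k).head?) S
    exact ⟨n + 1, by simp [depth, hn], by rw [iterate_succ_apply]; simpa [mstep] using h⟩
  | pop k f q ih =>
    obtain ⟨n, hn, h⟩ := ih (f v (S k).head?) (update S k (S k).tail)
    exact ⟨n + 1, by simp [depth, hn], by rw [iterate_succ_apply]; simpa [mstep] using h⟩
  | load a q ih =>
    obtain ⟨n, hn, h⟩ := ih (a v) S
    exact ⟨n + 1, by simp [depth, hn], by rw [iterate_succ_apply]; simpa [mstep] using h⟩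
  | branch f q₁ q₂ ih₁ ih₂ =>
    cases hf : f v
    · obtain ⟨n, hn, h⟩ := ih₂ v S
      exact ⟨n + 1, by simp [depth]; omega, by
        rw [iterate_succ_apply]; simpa [mstep, hf] using h⟩
    · obtain ⟨n, hn, h⟩ := ih₁ v S
      exact ⟨n + 1, by simp [depth]; omega, by
        rw [iterate_succ_apply]; simpa [mstep, hf] using h⟩
  | goto f => exact ⟨1, by simp [depth], by simp [mstep, emb]⟩
  | halt => exact ⟨1, by simp [depth], by simp [mstep, emb]⟩

theorem mstep_of_steps (M : Λ → Stmt Γ Λ σ) (B : ℕ) (hB : ∀ l, depth (M l) ≤ B) (s : ℕ)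
    (c c' : Cfg Γ Λ σ) (h : (flip bind (step M))^[s] (some c) = some c') :
    ∃ n ≤ s * B, (mstep M)^[n] (emb M c) = emb M c' := by
  induction s generalizing c with
  | zero =>
    simp only [iterate_zero, id_eq, Option.some.injEq] at h
    subst h
    exact ⟨0, by simp, rfl⟩
  | succ s ih =>
    rw [iterate_succ_apply] at h
    obtain ⟨l, v, S⟩ := c
    cases l with
    | none =>
      have : ∀ s, (flip bind (step M))^[s] (none : Option (Cfg Γ Λ σ)) = none := by
        intro s
        induction s with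
        | zero => rfl
        | succ s ih => rw [iterate_succ_apply]; exact ih
      have h2 : flip bind (step M) (some (⟨none, v, S⟩ : Cfg Γ Λ σ)) = none := rfl
      rw [h2, this] at h
      cases h
    | some l =>
      have h2 : flip bind (step M) (some (⟨some l, v, S⟩ : Cfg Γ Λ σ)) =
        some (stepAux (M l) v S) := rfl
      rw [h2] at h
      obtain ⟨n, hn, h3⟩ := ih _ h
      obtain ⟨n', hn', h4⟩ := mstep_stepAux M (M l) v S
      refine ⟨n + n', by have := hB l; nlinarith, ?_⟩
      rw [iterate_add_apply]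
      have : emb M ⟨some l, v, S⟩ = (some (M l), v, S) := rfl
      rw [this, h4, h3]

theorem mstep_halted (M : Λ → Stmt Γ Λ σ) (v : σ) (S : ∀ k, List (Γ k)) (n : ℕ) :
    (mstep M)^[n] (none, v, S) = (none, v, S) :=
  iterate_fixed rfl n

theorem mstep_of_halts (M : Λ → Stmt Γ Λ σ) (B : ℕ) (hB : ∀ l, depth (M l) ≤ B) (s : ℕ)
    (c c' : Cfg Γ Λ σ) (h : (flip bind (step M))^[s] (some c) = some c') (hc' : c'.l = none)
    (N : ℕ) (hN : s * B ≤ N) : (mstep M)^[N] (emb M c) = emb M c' := by
  obtain ⟨n, hn, h2⟩ := mstep_of_steps M B hB s c c' h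
  obtain ⟨d, rfl⟩ : ∃ d, N = d + n := ⟨N - n, by omega⟩
  rw [iterate_add_apply, h2]
  have : emb M c' = (none, c'.var, c'.stk) := by simp [emb, hc']
  rw [this, mstep_halted]

/-- cell values -/
abbrev Cell (Γ : K → Type) (Λ σ : Type) := Option (Stmt Γ Λ σ) × σ × (∀ k, Option (Γ k))

/-- the `i`-th horizontal slice of a micro-configuration -/
def cell (c : MCfg Γ Λ σ) (i : ℕ) : Cell Γ Λ σ := (c.1, c.2.1, fun k => (c.2.2 k)[i]?)

/-- the local rule -/
def rule (M : Λ → Stmt Γ Λ σ) (z : Bool) (c0 cl cm cr : Cell Γ Λ σ) : Cell Γ Λ σ :=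
  match c0 with
  | (none, v, _) => (none, v, cm.2.2)
  | (some (.push k f q), v, _) =>
      (some q, v, update cm.2.2 k (if z then some (f v) else cl.2.2 k))
  | (some (.peek k f q), v, h) => (some q, f v (h k), cm.2.2)
  | (some (.pop k f q), v, h) => (some q, f v (h k), update cm.2.2 k (cr.2.2 k))
  | (some (.load a q), v, _) => (some q, a v, cm.2.2)
  | (some (.branch f q₁ q₂), v, _) => (some (cond (f v) q₁ q₂), v, cm.2.2)
  | (some (.goto f), v, _) => (some (M (f v)), v, cm.2.2)
  | (some .halt, v, _) => (none, v, cm.2.2)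

theorem cell_mstep (M : Λ → Stmt Γ Λ σ) (c : MCfg Γ Λ σ) :
    cell (mstep M c) = rowStep (rule M) (cell c) := by
  funext i
  obtain ⟨q, v, S⟩ := c
  rcases q with _ | q
  · rfl
  cases q with
  | push k f q =>
    simp only [mstep, cell, rowStep, rule, Prod.mk.injEq, true_and]
    funext k'
    by_cases h : k' = k
    · subst h
      rcases i with _ | i <;> simp
    · simp [update_of_ne h]
  | peek k f q => simp [mstep, cell, rowStep, rule, List.head?_eq_getElem?]
  | pop k f q =>
    simp only [mstep, cell, rowStep, rule, Prod.mk.injEq, true_and, List.head?_eq_getElem?]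
    funext k'
    by_cases h : k' = k
    · subst h
      simp
    · simp [update_of_ne h]
  | load a q => rfl
  | branch f q₁ q₂ => rfl
  | goto f => rfl
  | halt => rfl

theorem cell_iter (M : Λ → Stmt Γ Λ σ) (c : MCfg Γ Λ σ) (t : ℕ) :
    cell ((mstep M)^[t] c) = (rowStep (rule M))^[t] (cell c) := by
  induction t with
  | zero => rfl
  | succ t ih => rw [iterate_succ_apply', iterate_succ_apply', cell_mstep, ih]

/-- substatements -/
def subs : Stmt Γ Λ σ → List (Stmt Γ Λ σ)
  | Q@(.push _ _ q) => Q :: subs q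
  | Q@(.peek _ _ q) => Q :: subs q
  | Q@(.pop _ _ q) => Q :: subs q
  | Q@(.load _ q) => Q :: subs q
  | Q@(.branch _ q₁ q₂) => Q :: (subs q₁ ++ subs q₂)
  | Q@(.goto _) => [Q]
  | Q@.halt => [Q]

omit [DecidableEq K] in
theorem self_mem_subs (q : Stmt Γ Λ σ) : q ∈ subs q := by
  cases q <;> simp [subs]

omit [DecidableEq K] in
theorem subs_trans {q q' : Stmt Γ Λ σ} (h : q' ∈ subs q) : subs q' ⊆ subs q := by
  induction q with
  | branch f q₁ q₂ ih₁ ih₂ =>
    simp only [subs, List.mem_cons, List.mem_append] at h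
    rcases h with rfl | h | h
    · exact fun _ h => h
    · intro x hx; simp [subs, ih₁ h hx]
    · intro x hx; simp [subs, ih₂ h hx]
  | goto f => simp only [subs, List.mem_singleton] at h; subst h; exact fun _ h => h
  | halt => simp only [subs, List.mem_singleton] at h; subst h; exact fun _ h => h
  | load _ q ih | push _ _ q ih | peek _ _ q ih | pop _ _ q ih =>
    simp only [subs, List.mem_cons] at h
    rcases h with rfl | h
    · exact fun _ h => h
    · intro x hx; simp [subs, ih h hx]

/-- all statements that can be current -/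
def allSt (M : Λ → Stmt Γ Λ σ) : Set (Stmt Γ Λ σ) := ⋃ l, {q | q ∈ subs (M l)}

/-- symbols of stack `k` pushed by statement `q` -/
def pushed (k : K) : Stmt Γ Λ σ → Set (Σ k, Γ k)
  | .push k' f _ => Set.range fun v => ⟨k', f v⟩
  | _ => ∅

/-- all symbols that can be on stack `k` -/
def allSym (M : Λ → Stmt Γ Λ σ) (k₀ k : K) : Set (Γ k) :=
  {s | k = k₀ ∨ ∃ q ∈ allSt M, (⟨k, s⟩ : Σ k, Γ k) ∈ pushed k q}

omit [DecidableEq K] in
theorem allSt_finite [Finite Λ] (M : Λ → Stmt Γ Λ σ) : (allSt M).Finite :=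
  Set.finite_iUnion fun l => List.finite_toSet _

omit [DecidableEq K] in
theorem pushed_finite [Finite σ] (k : K) (q : Stmt Γ Λ σ) : (pushed k q).Finite := by
  cases q <;> simp [pushed, Set.finite_range]

omit [DecidableEq K] in
theorem allSym_finite [Finite Λ] [Finite σ] (M : Λ → Stmt Γ Λ σ) (k₀ : K) [Finite (Γ k₀)] (k : K) :
    (allSym M k₀ k).Finite := by
  by_cases h : k = k₀
  · subst h; exact Set.toFinite _
  · have h1 : (⋃ q ∈ allSt M, pushed k q).Finite :=
      (allSt_finite M).biUnion fun q _ => pushed_finite k q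
    refine (h1.preimage (f := fun s : Γ k => (⟨k, s⟩ : Σ k, Γ k))
      (fun a _ b _ hab => by simpa using hab)).subset ?_
    rintro s (hs | ⟨q, hq, hs⟩)
    · exact absurd hs h
    · simp only [Set.mem_preimage, Set.mem_iUnion]
      exact ⟨q, hq, hs⟩

/-- the invariant -/
def GoodCfg (M : Λ → Stmt Γ Λ σ) (k₀ : K) (c : MCfg Γ Λ σ) : Prop :=
  (∀ q, c.1 = some q → q ∈ allSt M) ∧ ∀ k, ∀ s ∈ c.2.2 k, s ∈ allSym M k₀ k

omit [DecidableEq K] in
theorem allSt_of_sub {M : Λ → Stmt Γ Λ σ} {q q' : Stmt Γ Λ σ} (h : q ∈ allSt M)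
    (h' : q' ∈ subs q) : q' ∈ allSt M := by
  simp only [allSt, Set.mem_iUnion, Set.mem_setOf_eq] at h ⊢
  obtain ⟨l, hl⟩ := h
  exact ⟨l, subs_trans hl h'⟩

theorem goodCfg_mstep (M : Λ → Stmt Γ Λ σ) (k₀ : K) (c : MCfg Γ Λ σ) (h : GoodCfg M k₀ c) :
    GoodCfg M k₀ (mstep M c) := by
  obtain ⟨q, v, S⟩ := c
  rcases q with _ | q
  · exact h
  have hq := h.1 q rfl
  have hS := h.2
  cases q with
  | push k f q =>
    refine ⟨fun q' h' => ?_, fun k' s hs => ?_⟩
    · cases h'; exact allSt_of_sub hq (by simp [subs, self_mem_subs])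
    · by_cases hk : k' = k
      · subst hk
        simp only [mstep, update_self, List.mem_cons] at hs
        rcases hs with rfl | hs
        · exact Or.inr ⟨_, hq, v, rfl⟩
        · exact hS _ _ hs
      · simp only [mstep, update_of_ne hk] at hs
        exact hS _ _ hs
  | peek k f q =>
    exact ⟨fun q' h' => by cases h'; exact allSt_of_sub hq (by simp [subs, self_mem_subs]), hS⟩
  | pop k f q =>
    refine ⟨fun q' h' => ?_, fun k' s hs => ?_⟩
    · cases h'; exact allSt_of_sub hq (by simp [subs, self_mem_subs])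
    · by_cases hk : k' = k
      · subst hk
        simp only [mstep, update_self] at hs
        exact hS _ _ (List.mem_of_mem_tail hs)
      · simp only [mstep, update_of_ne hk] at hs
        exact hS _ _ hs
  | load a q =>
    exact ⟨fun q' h' => by cases h'; exact allSt_of_sub hq (by simp [subs, self_mem_subs]), hS⟩
  | branch f q₁ q₂ =>
    refine ⟨fun q' h' => ?_, hS⟩
    simp only [mstep, Option.some.injEq] at h'
    subst h'
    cases f v <;> exact allSt_of_sub hq (by simp [subs, self_mem_subs])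
  | goto f =>
    refine ⟨fun q' h' => ?_, hS⟩
    simp only [mstep, Option.some.injEq] at h'
    subst h'
    simp only [allSt, Set.mem_iUnion, Set.mem_setOf_eq]
    exact ⟨_, self_mem_subs _⟩
  | halt => exact ⟨fun q' h' => by simp [mstep] at h', hS⟩

/-- the finite set of cell values that occur -/
def goodCells (M : Λ → Stmt Γ Λ σ) (k₀ : K) : Set (Cell Γ Λ σ) :=
  (insert none (some '' allSt M)) ×ˢ (Set.univ ×ˢ
    Set.univ.pi fun k => insert none (some '' allSym M k₀ k))

omit [DecidableEq K] in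
theorem goodCells_finite [Finite K] [Finite Λ] [Finite σ] (M : Λ → Stmt Γ Λ σ) (k₀ : K)
    [Finite (Γ k₀)] : (goodCells M k₀).Finite :=
  (((allSt_finite M).image _).insert _).prod (Set.finite_univ.prod
    (Set.Finite.pi fun k => ((allSym_finite M k₀ k).image _).insert _))

omit [DecidableEq K] in
theorem cell_mem_goodCells (M : Λ → Stmt Γ Λ σ) (k₀ : K) (c : MCfg Γ Λ σ) (h : GoodCfg M k₀ c)
    (i : ℕ) : cell c i ∈ goodCells M k₀ := by
  refine ⟨?_, trivial, fun k _ => ?_⟩
  · rcases hq : c.1 with _ | q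
    · simp [cell, hq]
    · simp only [cell, hq]
      exact Or.inr ⟨q, h.1 q hq, rfl⟩
  · rcases hs : (c.2.2 k)[i]? with _ | s
    · simp [cell, hs]
    · simp only [cell, hs]
      exact Or.inr ⟨s, h.2 k s (List.mem_of_getElem? hs), rfl⟩

end Micro

end Pool.Agent.Shared.H27
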