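import Pool.Agent.Shared.H27.CookLevin
import Pool.Agent.Shared.H56.Decode
import Pool.Agent.Shared.H56.Converse

set_option autoImplicit false

namespace Pool.Agent.Shared.H27

open Pool.Agent.Shared.H56 N68a2faeb

variable {α γ : Type} [N487b59b3 α] [N487b59b3 γ]

/-- A typed search problem with a polynomial time check and short witnesses gives a language
in NP on the encodings. -/
theorem exists_NP_typed [DecPT α] [DecPT γ] (a0 : α) (c0 : γ) (R : α × γ → Bool) (hR : PT R)
    (n : α → ℕ) (hn : PT fun a => un (n a)) (hB : ∀ a c, R (a, c) = true → sz c ≤ n a) :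
    ∃ A ∈ NP, ∀ a, A (enc a) = true ↔ ∃ c, R (a, c) = true := by
  classical
  let dec : List Bool → α := fun z => (N487b59b3.bitDecode z : Option α).getD a0
  let decw : List Bool → γ := fun z => (N487b59b3.bitDecode z : Option γ).getD c0
  have hdec : PT dec := by unfold dec; fun_prop
  have hdecw : PT decw := by unfold decw; fun_prop
  obtain ⟨B, hB2⟩ := (hn.comp hdec).size
  refine ⟨fun z => decide (∃ c, R (dec z, c) = true),
    ⟨B.comp (3 * Polynomial.X), fun p => R (dec p.1, decw p.2), PT.isPolyTime (by fun_prop),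
      fun z => ?_⟩, fun a => ?_⟩
  · simp only [decide_eq_true_eq]
    constructor
    · rintro ⟨c, hc⟩
      refine ⟨enc c, ?_, by simpa [decw, enc] using hc⟩
      have h1 := hB _ _ hc
      have h2 := hB2 z
      rw [sz_list_bool, sz_list_bool] at h2
      simp only [Polynomial.eval_comp, Polynomial.eval_mul, Polynomial.eval_ofNat,
        Polynomial.eval_X]
      simp only [un, List.length_replicate] at h2
      unfold sz at h1
      omega
    · rintro ⟨w, -, hw⟩
      exact ⟨_, hw⟩
  · simp [dec, enc]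

/-- Cook-Levin for typed search problems. -/
theorem cookLevin3_typed [DecPT α] [DecPT γ] (a0 : α) (c0 : γ) (R : α × γ → Bool) (hR : PT R)
    (n : α → ℕ) (hn : PT fun a => un (n a)) (hB : ∀ a c, R (a, c) = true → sz c ≤ n a) :
    ∃ f : α → CNF, PT f ∧ (∀ a, ∀ c ∈ f a, c.length = 3) ∧
      ∀ a, Sat (f a) ↔ ∃ c, R (a, c) = true := by
  obtain ⟨A, hA, h⟩ := exists_NP_typed a0 c0 R hR n hn hB
  obtain ⟨f, h1, h2, h3⟩ := cookLevin3 A hA
  exact ⟨fun a => f (enc a), by fun_prop, fun a => h2 _, fun a => (h3 _).symm.trans (h a)⟩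

theorem sz_le_of_forall {l : List γ} {b : ℕ} (h : ∀ x ∈ l, sz x ≤ b) :
    sz l ≤ l.length * (2 * b + 1) := by
  induction l with
  | nil => simp
  | cons a l ih =>
    have h1 := ih fun x hx => h x (List.mem_cons_of_mem _ hx)
    have h2 := h a List.mem_cons_self
    simp only [sz_cons, List.length_cons]
    nlinarith

@[fun_prop] theorem pt_eval_length {β : Type} [N487b59b3 β] (p : Polynomial ℕ) {l : α → List β}
    (hl : PT l) : PT fun a => p.eval (l a).length :=
  (hl.un_length.un_poly p).of_un

theorem satisfies_of_to3 {φ : CNF} {ν : ℕ → Bool} (hν : Satisfies ν (to3 φ)) :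
    Satisfies (fun v => ν (2 * v)) φ := by
  intro c hc
  obtain ⟨j, hj, rfl⟩ := List.getElem_of_mem hc
  have hg : φ.getD j [] = φ[j] := List.getD_eq_getElem _ _ hj
  have hch : Satisfies ν (chain3 j φ[j]) := fun d hd =>
    hν d (List.mem_flatMap.2 ⟨j, List.mem_range.2 hj, by rwa [hg]⟩)
  generalize φ[j] = c at hch
  simp only [chain3, satisfies_append] at hch
  obtain ⟨⟨h1, h2⟩, h3⟩ := hch
  by_contra hcon
  push Not at hcon
  have key : ∀ i ≤ c.length, ν (zVar j i) = true := by
    intro i
    induction i with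
    | zero => intro _; simpa [Satisfies] using h1
    | succ i ih =>
      intro hi
      have h4 := h2 _ (List.mem_map.2 ⟨i, List.mem_range.2 hi, rfl⟩)
      have h5 := ih (by omega)
      have h6 := hcon _ (List.getElem_mem (show i < c.length from hi))
      rw [List.getD_eq_getElem _ _ hi] at h4
      simpa [h5, h6] using h4
  have := key _ le_rfl
  simp [Satisfies, this] at h3

theorem exists_satisfies_to3 {φ : CNF} {ν : ℕ → Bool} (hν : Satisfies ν φ) :
    ∃ μ, Satisfies μ (to3 φ) ∧ ∀ v, μ (2 * v) = ν v := by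
  classical
  let μ : ℕ → Bool := fun v => if v % 2 = 0 then ν (v / 2) else
    decide (∃ j i, v = zVar j i ∧ ∀ i' < i, ν ((φ.getD j []).getD i' (0, false)).1 ≠
      ((φ.getD j []).getD i' (0, false)).2)
  have hμ1 : ∀ v, μ (2 * v) = ν v := by intro v; simp [μ]
  have hμ2 : ∀ j i, μ (zVar j i) = true ↔ ∀ i' < i, ν ((φ.getD j []).getD i' (0, false)).1 ≠
      ((φ.getD j []).getD i' (0, false)).2 := by
    intro j i
    have : ¬ (zVar j i % 2 = 0) := by unfold zVar; omega
    simp only [μ, this, if_false, decide_eq_true_eq, zVar_inj]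
    constructor
    · rintro ⟨j', i', ⟨rfl, rfl⟩, h⟩; exact h
    · intro h; exact ⟨j, i, ⟨rfl, rfl⟩, h⟩
  refine ⟨μ, fun d hd => ?_, hμ1⟩
  obtain ⟨j, hj, hd⟩ := List.mem_flatMap.1 hd
  have hj' := List.mem_range.1 hj
  have hc := hν (φ.getD j []) (by rw [List.getD_eq_getElem _ _ hj']; exact List.getElem_mem hj')
  have hμ3 := hμ2 j
  generalize φ.getD j [] = c at hd hc hμ3
  simp only [chain3, List.mem_append, List.mem_map, List.mem_singleton, List.mem_range] at hd
  rcases hd with (rfl | ⟨i, hi, rfl⟩) | rfl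
  · exact ⟨(zVar j 0, true), by simp, (hμ3 0).2 (by simp)⟩
  · by_cases h1 : μ (zVar j i) = true
    · by_cases h2 : ν (c.getD i (0, false)).1 = (c.getD i (0, false)).2
      · exact ⟨_, List.mem_cons_of_mem _ List.mem_cons_self, by rw [hμ1]; exact h2⟩
      · refine ⟨(zVar j (i + 1), true), by simp, (hμ3 _).2 fun i' hi' => ?_⟩
        rcases Nat.lt_succ_iff_lt_or_eq.1 hi' with h | rfl
        · exact (hμ3 _).1 h1 i' h
        · exact h2
    · exact ⟨(zVar j i, false), by simp, by simpa using h1⟩
  · refine ⟨(zVar j c.length, false), by simp, ?_⟩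
    rw [← Bool.not_eq_true, hμ3]
    intro h
    obtain ⟨l, hl, hl2⟩ := hc
    obtain ⟨i, hi, rfl⟩ := List.getElem_of_mem hl
    have := h i hi
    rw [List.getD_eq_getElem _ _ hi] at this
    exact this hl2

end Pool.Agent.Shared.H27
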