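import Pool.Agent.Shared.H27.Tableau

set_option autoImplicit false

namespace Pool.Agent.Shared.H27

/-- chain variable number `i` of clause number `j` -/
def zVar (j i : ℕ) : ℕ := 2 * Nat.pair j i + 1

theorem zVar_inj {j i j' i' : ℕ} : zVar j i = zVar j' i' ↔ j = j' ∧ i = i' := by
  rw [← Nat.pair_eq_pair]; unfold zVar; omega

/-- the clauses replacing clause `c`, which has number `j` -/
def chain3 (j : ℕ) (c : List (ℕ × Bool)) : CNF :=
  [[(zVar j 0, true), (zVar j 0, true), (zVar j 0, true)]] ++
  ((List.range c.length).map fun i =>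
    [(zVar j i, false), (2 * (c.getD i (0, false)).1, (c.getD i (0, false)).2),
      (zVar j (i + 1), true)]) ++
  [[(zVar j c.length, false), (zVar j c.length, false), (zVar j c.length, false)]]

/-- conversion of a CNF formula to one with exactly three literals in each clause -/
def to3 (φ : CNF) : CNF := (List.range φ.length).flatMap fun j => chain3 j (φ.getD j [])

theorem length_of_mem_to3 {φ : CNF} {c : List (ℕ × Bool)} (h : c ∈ to3 φ) : c.length = 3 := by
  simp only [to3, chain3, List.mem_flatMap, List.mem_append, List.mem_map, List.mem_singleton] at h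
  obtain ⟨j, -, (rfl | ⟨i, -, rfl⟩) | rfl⟩ := h <;> rfl

theorem sat_to3 (φ : CNF) : Sat (to3 φ) ↔ Sat φ := by
  constructor
  · rintro ⟨ν, hν⟩
    refine ⟨fun v => ν (2 * v), fun c hc => ?_⟩
    obtain ⟨j, hj, rfl⟩ := List.getElem_of_mem hc
    have hg : φ.getD j [] = φ[j] := List.getD_eq_getElem _ _ hj
    have hch : Satisfies ν (chain3 j φ[j]) := fun d hd =>
      hν d (List.mem_flatMap.2 ⟨j, List.mem_range.2 hj, by rwa [hg]⟩)
    generalize φ[j] = c at hch
    simp only [chain3, satisfies_append] at hch
    obtain ⟨⟨h1, h2⟩, h3⟩ := hch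
    by_contra hcon
    push Not at hcon
    have key : ∀ i ≤ c.length, ν (zVar j i) = true := by
      intro i
      induction i with
      | zero => intro _; simpa [Satisfies] using h1
      | succ i ih =>
        intro hi
        have h4 := h2 _ (List.mem_map.2 ⟨i, List.mem_range.2 hi, rfl⟩)
        have h5 := ih (by omega)
        have h6 := hcon _ (List.getElem_mem (show i < c.length from hi))
        rw [List.getD_eq_getElem _ _ hi] at h4
        simpa [h5, h6] using h4
    have := key _ le_rfl
    simp [Satisfies, this] at h3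
  · rintro ⟨ν, hν⟩
    classical
    let μ : ℕ → Bool := fun v => if v % 2 = 0 then ν (v / 2) else
      decide (∃ j i, v = zVar j i ∧ ∀ i' < i, ν ((φ.getD j []).getD i' (0, false)).1 ≠
        ((φ.getD j []).getD i' (0, false)).2)
    have hμ1 : ∀ v, μ (2 * v) = ν v := by intro v; simp [μ]
    have hμ2 : ∀ j i, μ (zVar j i) = true ↔ ∀ i' < i, ν ((φ.getD j []).getD i' (0, false)).1 ≠
        ((φ.getD j []).getD i' (0, false)).2 := by
      intro j i
      have : ¬ (zVar j i % 2 = 0) := by unfold zVar; omega
      simp only [μ, this, if_false, decide_eq_true_eq, zVar_inj]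
      constructor
      · rintro ⟨j', i', ⟨rfl, rfl⟩, h⟩; exact h
      · intro h; exact ⟨j, i, ⟨rfl, rfl⟩, h⟩
    refine ⟨μ, fun d hd => ?_⟩
    obtain ⟨j, hj, hd⟩ := List.mem_flatMap.1 hd
    have hj' := List.mem_range.1 hj
    have hc := hν (φ.getD j []) (by rw [List.getD_eq_getElem _ _ hj']; exact List.getElem_mem hj')
    have hμ3 := hμ2 j
    generalize φ.getD j [] = c at hd hc hμ3
    simp only [chain3, List.mem_append, List.mem_map, List.mem_singleton, List.mem_range] at hd
    rcases hd with (rfl | ⟨i, hi, rfl⟩) | rfl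
    · exact ⟨(zVar j 0, true), by simp, (hμ3 0).2 (by simp)⟩
    · by_cases h1 : μ (zVar j i) = true
      · by_cases h2 : ν (c.getD i (0, false)).1 = (c.getD i (0, false)).2
        · exact ⟨_, List.mem_cons_of_mem _ List.mem_cons_self, by rw [hμ1]; exact h2⟩
        · refine ⟨(zVar j (i + 1), true), by simp, (hμ3 _).2 fun i' hi' => ?_⟩
          rcases Nat.lt_succ_iff_lt_or_eq.1 hi' with h | rfl
          · exact (hμ3 _).1 h1 i' h
          · exact h2
      · exact ⟨(zVar j i, false), by simp, by simpa using h1⟩
    · refine ⟨(zVar j c.length, false), by simp, ?_⟩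
      rw [← Bool.not_eq_true, hμ3]
      intro h
      obtain ⟨l, hl, hl2⟩ := hc
      obtain ⟨i, hi, rfl⟩ := List.getElem_of_mem hl
      have := h i hi
      rw [List.getD_eq_getElem _ _ hi] at this
      exact this hl2

end Pool.Agent.Shared.H27
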