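import Pool.Agent.Shared.H27.CookLevinSem
import Pool.Agent.Shared.H27.ThreeSat
import Pool.Agent.Shared.H56.Lists

set_option autoImplicit false

namespace Pool.Agent.Shared.H27

open Pool.Agent.Shared.H56 N68a2faeb

variable {α : Type} [N487b59b3 α]

@[fun_prop] theorem pt_natPair {f g : α → ℕ} (hf : PT f) (hg : PT g) :
    PT (fun a => Nat.pair (f a) (g a)) := by
  unfold Nat.pair
  fun_prop

@[fun_prop] theorem pt_selVar {f : α → ℕ} (hf : PT f) : PT (fun a => selVar (f a)) := by
  unfold selVar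
  fun_prop

@[fun_prop] theorem pt_cellVar {f g h : α → ℕ} (hf : PT f) (hg : PT g) (hh : PT h) :
    PT (fun a => cellVar (f a) (g a) (h a)) := by
  unfold cellVar
  fun_prop

theorem pt_tabCNF (c : Tables) {pats : α → List (List ℕ)} {T W : α → ℕ} (hp : PT pats)
    (hT : PT fun a => un (T a)) (hW : PT fun a => un (W a)) :
    PT (fun a => c.cnf (pats a) (T a) (W a)) := by
  have hT' := hT.of_un
  obtain ⟨R1, h1, e1⟩ : ∃ R : α → List ℕ, PT R ∧ ∀ a, List.range (W a + 1) = R a :=
    ⟨_, by fun_prop, fun _ => rfl⟩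
  obtain ⟨R2, h2, e2⟩ : ∃ R : α → List ℕ, PT R ∧ ∀ a, List.range (W a) = R a :=
    ⟨_, by fun_prop, fun _ => rfl⟩
  unfold Tables.cnf tabCNF
  simp only [e1, e2]
  fun_prop

theorem pt_patsOf {x : α → List Bool} {P : α → ℕ} (hx : PT x) (hP : PT fun a => un (P a)) :
    PT (fun a => patsOf (x a) (P a)) := by
  obtain ⟨R1, h1, e1⟩ : ∃ R : α → List ℕ, PT R ∧ ∀ a, List.range (P a + 1) = R a :=
    ⟨_, by fun_prop, fun _ => rfl⟩
  have h : PT (fun a => (R1 a).map fun l =>
      fixedPart (x a) ++ (List.range (min l (R1 a).length)).flatMap fun _ => [1, 2, 0]) := by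
    unfold fixedPart bitCode
    fun_prop
  refine h.congr fun a => ?_
  unfold patsOf
  rw [← e1]
  refine List.map_congr_left fun l hl => ?_
  rw [List.length_range, min_eq_left (List.mem_range.1 hl).le]

theorem pt_clCNF (c : Tables) (pP pT pW : Polynomial ℕ) : PT (clCNF c pP pT pW) := by
  have hl : PT fun x : List Bool => un x.length := by fun_prop
  exact pt_tabCNF c (pt_patsOf PT.id' (hl.un_poly pP)) (hl.un_poly pT) (hl.un_poly pW)

@[fun_prop] theorem pt_zVar {f g : α → ℕ} (hf : PT f) (hg : PT g) :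
    PT (fun a => zVar (f a) (g a)) := by
  unfold zVar
  fun_prop

@[fun_prop] theorem pt_to3 {φ : α → CNF} (h : PT φ) : PT (fun a => to3 (φ a)) := by
  unfold to3 chain3
  fun_prop

/-- Cook-Levin: every language in NP reduces in polynomial time to CNF satisfiability. -/
theorem cookLevin (L : DecisionProblem) (hL : L ∈ NP) :
    ∃ f : List Bool → CNF, PT f ∧ ∀ x, L x = true ↔ Sat (f x) := by
  obtain ⟨c, pP, pT, pW, h⟩ := cookLevin_sem L hL
  exact ⟨_, pt_clCNF c pP pT pW, h⟩

/-- Cook-Levin for formulas with exactly three literals in each clause. -/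
theorem cookLevin3 (L : DecisionProblem) (hL : L ∈ NP) :
    ∃ f : List Bool → CNF, PT f ∧ (∀ x, ∀ c ∈ f x, c.length = 3) ∧
      ∀ x, L x = true ↔ Sat (f x) := by
  obtain ⟨f, hf, h⟩ := cookLevin L hL
  exact ⟨fun x => to3 (f x), pt_to3 hf, fun x c hc => length_of_mem_to3 hc,
    fun x => (h x).trans (sat_to3 _).symm⟩

end Pool.Agent.Shared.H27
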