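import Pool.Agent.Shared.H27.Micro
import Pool.Prelude.Def_F_458e953d

set_option autoImplicit false

namespace Pool.Agent.Shared.H27

open Turing Turing.TM2 Function

/-- the constant tables of a tableau formula -/
structure Tables where
  n : ℕ
  badInit : List (List ℕ)
  tab0 : List (ℕ × ℕ × ℕ × ℕ × ℕ)
  tab1 : List (ℕ × ℕ × ℕ × ℕ × ℕ)
  badAcc : List ℕ

/-- the tableau formula with given tables -/
def Tables.cnf (c : Tables) (pats : List (List ℕ)) (T W : ℕ) : CNF :=
  tabCNF c.n c.badInit c.tab0 c.tab1 c.badAcc pats T W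

theorem exists_tables_abstract {D : Type} (Φ : Bool → D → D → D → D → D) (base : Option Bool → D)
    (acc : D → Prop) (F : Set D) (hF : F.Finite)
    (hcl : ∀ (y : List Bool) (t i : ℕ), (rowStep Φ)^[t] (fun j => base y[j]?) i ∈ F) :
    ∃ c : Tables, ∀ (pats : List (List ℕ)) (T W : ℕ), T ≤ W →
      (∀ π ∈ pats, π.length ≤ W + 1 ∧ ∀ s ∈ π, s ≤ 2) →
      (Sat (c.cnf pats T W) ↔
        ∃ π ∈ pats, ∃ y, Matches π y ∧ acc ((rowStep Φ)^[T] (fun j => base y[j]?) 0)) := by
  classical
  let vs := hF.toFinset.toList
  let n := vs.length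
  let val : ℕ → D := fun a => vs.getD a (base none)
  let R := List.range n
  let all5 : List (ℕ × ℕ × ℕ × ℕ × ℕ) := R ×ˢ (R ×ˢ (R ×ˢ (R ×ˢ R)))
  let tb : Bool → List (ℕ × ℕ × ℕ × ℕ × ℕ) := fun z => all5.filter fun e =>
    decide (val e.2.2.2.2 ≠ Φ z (val e.1) (val e.2.1) (val e.2.2.1) (val e.2.2.2.1))
  let bi : ℕ → List ℕ := fun s => R.filter fun a => decide (¬ ∃ o, okSym s o ∧ val a = base o)
  refine ⟨⟨n, [bi 0, bi 1, bi 2, bi 3], tb true, tb false, R.filter fun a => decide (¬ acc (val a))⟩,
    fun pats T W hTW hp => ?_⟩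
  refine sat_tabCNF Φ base acc n val _ _ _ _ ?_ ?_ ?_ ?_ pats T W hTW hp
  · intro s hs a
    interval_cases s <;> simp [bi, R]
  · intro z e
    obtain ⟨e1, e2, e3, e4, e5⟩ := e
    cases z <;> simp [tb, all5, R, and_assoc]
  · intro a
    simp [R]
  · intro y t i
    have h := hcl y t i
    have h2 : (rowStep Φ)^[t] (fun j => base y[j]?) i ∈ vs := by simpa [vs] using h
    obtain ⟨a, ha, hv⟩ := List.getElem_of_mem h2
    exact ⟨a, ha, by simp only [val]; rw [List.getD_eq_getElem _ _ ha, hv]⟩

theorem exists_tables (A : TM2ComputableAux Bool Bool) :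
    ∃ (c : Tables) (B : ℕ) (accAt : List Bool → ℕ → Prop),
      (∀ (pats : List (List ℕ)) (T W : ℕ), T ≤ W →
        (∀ π ∈ pats, π.length ≤ W + 1 ∧ ∀ s ∈ π, s ≤ 2) →
        (Sat (c.cnf pats T W) ↔ ∃ π ∈ pats, ∃ y, Matches π y ∧ accAt y T)) ∧
      ∀ (y : List Bool) (b : Bool) (s T : ℕ),
        TM2OutputsInTime A.tm (y.map A.inputAlphabet.invFun)
          (some ([b].map A.outputAlphabet.invFun)) s → s * B ≤ T → (accAt y T ↔ b = true) := by
  classical
  let tm := A.tm
  have := tm.kFin
  have := tm.ΛFin
  have := tm.σFin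
  have := tm.Γk₀Fin
  let base : Option Bool → Cell tm.Γ tm.Λ tm.σ := fun o =>
    (some (tm.m tm.main), tm.initialState,
      update (fun _ => none) tm.k₀ (o.map A.inputAlphabet.invFun))
  let acc : Cell tm.Γ tm.Λ tm.σ → Prop := fun d =>
    d.2.2 tm.k₁ = some (A.outputAlphabet.invFun true)
  have hinit : ∀ y : List Bool, cell (emb tm.m (initList tm (y.map A.inputAlphabet.invFun))) =
      fun j => base y[j]? := by
    intro y
    funext j
    simp only [cell, emb, initList, base, Option.map_some, Prod.mk.injEq, true_and]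
    funext k
    by_cases hk : k = tm.k₀
    · subst hk
      simp
    · simp [hk]
  have hgood : ∀ (y : List Bool) (t : ℕ), GoodCfg tm.m tm.k₀
      ((mstep tm.m)^[t] (emb tm.m (initList tm (y.map A.inputAlphabet.invFun)))) := by
    intro y t
    induction t with
    | zero =>
      refine ⟨fun q hq => ?_, fun k s hs => ?_⟩
      · simp only [iterate_zero, id_eq, emb, initList, Option.map_some, Option.some.injEq] at hq
        subst hq
        exact Set.mem_iUnion.2 ⟨_, self_mem_subs _⟩
      · by_cases hk : k = tm.k₀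
        · exact Or.inl hk
        · simp [emb, initList, hk] at hs
    | succ t ih => rw [iterate_succ_apply']; exact goodCfg_mstep _ _ _ ih
  obtain ⟨c, hc⟩ := exists_tables_abstract (rule tm.m) base acc (goodCells tm.m tm.k₀)
    (goodCells_finite _ _) (by
      intro y t i
      rw [← hinit, ← cell_iter]
      exact cell_mem_goodCells _ _ _ (hgood y t) i)
  obtain ⟨B, hB⟩ : ∃ B, ∀ l, depth (tm.m l) ≤ B :=
    ⟨Finset.univ.sup fun l => depth (tm.m l), fun l =>
      Finset.le_sup (f := fun l => depth (tm.m l)) (Finset.mem_univ l)⟩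
  refine ⟨c, B, fun y T => acc ((rowStep (rule tm.m))^[T] (fun j => base y[j]?) 0), hc, ?_⟩
  intro y b s T h hT
  have h1 := mstep_of_halts tm.m B hB h.steps _ _ h.evals_in_steps rfl T
    (le_trans (Nat.mul_le_mul_right _ h.steps_le_m) hT)
  dsimp only
  rw [← hinit, ← cell_iter, h1]
  simp only [acc, cell, emb, haltList]
  simp [tm]

open N68a2faeb N487b59b3

/-- code of a bit in a pattern -/
def bitCode (b : Bool) : ℕ := if b then 1 else 0

/-- the fixed part of the input of the verifier -/
def fixedPart (x : List Bool) : List ℕ :=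
  (x.flatMap fun b => [1, 1, 1, bitCode b, 1, 0]) ++ [0]

/-- the patterns: one for each length of the witness -/
def patsOf (x : List Bool) (P : ℕ) : List (List ℕ) :=
  (List.range (P + 1)).map fun l => fixedPart x ++ (List.range l).flatMap fun _ => [1, 2, 0]

theorem bitEncode_listBool (x : List Bool) :
    bitEncode x = x.flatMap fun b => [true, b, false] := by
  induction x with
  | nil => rfl
  | cons b x ih =>
    have h1 : bitEncode (b :: x) = delimit (bitEncode b) ++ bitEncode x := rfl
    rw [h1, ih]
    rfl

theorem delimit_append (a b : List Bool) :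
    delimit (a ++ b) = (a.flatMap fun c => [true, c]) ++ delimit b := by
  induction a with
  | nil => rfl
  | cons c a ih => simp [delimit, ih]

theorem fixedPart_eq (x : List Bool) : fixedPart x = (delimit (bitEncode x)).map bitCode := by
  rw [bitEncode_listBool]
  induction x with
  | nil => rfl
  | cons b x ih =>
    simp only [fixedPart, List.flatMap_cons, List.append_assoc] at ih ⊢
    rw [ih, delimit_append]
    simp [bitCode]

theorem matches_nil (y : List Bool) : Matches [] y ↔ y = [] := by
  constructor
  · intro h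
    have := h 0
    cases y with
    | nil => rfl
    | cons b y => simp [okSym] at this
  · rintro rfl i
    simp [okSym]

theorem matches_cons (s : ℕ) (hs : s ≤ 2) (π : List ℕ) (y : List Bool) :
    Matches (s :: π) y ↔ ∃ b y', y = b :: y' ∧ okSym s (some b) ∧ Matches π y' := by
  constructor
  · intro h
    cases y with
    | nil =>
      have := h 0
      interval_cases s <;> simp [okSym] at this
    | cons b y =>
      exact ⟨b, y, rfl, by simpa using h 0, fun i => by simpa using h (i + 1)⟩
  · rintro ⟨b, y', rfl, h1, h2⟩ i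
    cases i with
    | zero => simpa using h1
    | succ i => simpa using h2 i

theorem matches_fixed (u : List Bool) (π : List ℕ) (y : List Bool) :
    Matches (u.map bitCode ++ π) y ↔ ∃ y', y = u ++ y' ∧ Matches π y' := by
  induction u generalizing y with
  | nil => simp
  | cons b u ih =>
    rw [List.map_cons, List.cons_append, matches_cons _ (by cases b <;> simp [bitCode])]
    constructor
    · rintro ⟨b', y', rfl, h1, h2⟩
      obtain ⟨y'', rfl, h3⟩ := (ih _).1 h2
      have : b' = b := by cases b <;> simpa [bitCode, okSym] using h1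
      exact ⟨y'', by simp [this], h3⟩
    · rintro ⟨y', rfl, h⟩
      exact ⟨b, u ++ y', rfl, by cases b <;> simp [bitCode, okSym], (ih _).2 ⟨y', rfl, h⟩⟩

theorem matches_free (l : ℕ) (y : List Bool) :
    Matches ((List.range l).flatMap fun _ => [1, 2, 0]) y ↔
      ∃ w : List Bool, w.length = l ∧ y = bitEncode w := by
  have hr : ∀ l : ℕ, ((List.range (l + 1)).flatMap fun _ => [1, 2, 0]) =
      1 :: 2 :: 0 :: ((List.range l).flatMap fun _ => [1, 2, 0]) := by
    intro l
    rw [List.range_succ_eq_map]
    simp [List.flatMap_map]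
  simp only [bitEncode_listBool]
  induction l generalizing y with
  | zero => simp [matches_nil]
  | succ l ih =>
    rw [hr]
    simp only [matches_cons 1 (by norm_num), matches_cons 2 le_rfl, matches_cons 0 (by norm_num), ih]
    constructor
    · rintro ⟨b1, y1, rfl, h1, b2, y2, rfl, -, b3, y3, rfl, h3, w, hw, rfl⟩
      simp only [okSym, Option.some.injEq] at h1 h3
      subst h1 h3
      exact ⟨b2 :: w, by simp [hw], by simp⟩
    · rintro ⟨w, hw, rfl⟩
      cases w with
      | nil => simp at hw
      | cons b w =>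
        refine ⟨true, _, rfl, by simp [okSym], b, _, rfl, by simp [okSym], false, _, rfl,
          by simp [okSym], w, by simpa using hw, rfl⟩

theorem length_bitEncode_listBool (x : List Bool) : (bitEncode x).length = 3 * x.length := by
  rw [bitEncode_listBool]
  induction x with
  | nil => rfl
  | cons b x ih => simp only [List.flatMap_cons, List.length_append, ih]; simp; ring

theorem eval_mono (p : Polynomial ℕ) {a b : ℕ} (h : a ≤ b) : p.eval a ≤ p.eval b := by
  induction p using Polynomial.induction_on' with
  | add p q hp hq => simp only [Polynomial.eval_add]; omega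
  | monomial n c =>
    simp only [Polynomial.eval_monomial]
    exact Nat.mul_le_mul_left _ (Nat.pow_le_pow_left h _)

/-- The Cook-Levin formula for the input `x`. -/
noncomputable def clCNF (c : Tables) (pP pT pW : Polynomial ℕ) (x : List Bool) : CNF :=
  c.cnf (patsOf x (pP.eval x.length)) (pT.eval x.length) (pW.eval x.length)

/-- Cook-Levin, semantic part. -/
theorem cookLevin_sem (L : DecisionProblem) (hL : L ∈ NP) :
    ∃ (c : Tables) (pP pT pW : Polynomial ℕ), ∀ x, L x = true ↔ Sat (clCNF c pP pT pW x) := by
  obtain ⟨p, R, ⟨hR⟩, hLR⟩ := hL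
  obtain ⟨c, B, accAt, h1, h2⟩ := exists_tables hR.toTM2ComputableAux
  let pm : Polynomial ℕ := 6 * Polynomial.X + 1 + 3 * p
  let pT : Polynomial ℕ := hR.time.comp pm * Polynomial.C B
  refine ⟨c, p, pT, pT + pm, fun x => ?_⟩
  have hpm : pm.eval x.length = 6 * x.length + 1 + 3 * p.eval x.length := by simp [pm]
  have hpT : pT.eval x.length = hR.time.eval (pm.eval x.length) * B := by
    simp [pT, Polynomial.eval_comp]
  have hlen : ∀ w : List Bool, (delimit (bitEncode x) ++ bitEncode w).length =
      6 * x.length + 1 + 3 * w.length := by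
    intro w
    simp [length_bitEncode_listBool]; ring
  have hacc : ∀ w : List Bool, w.length ≤ p.eval x.length →
      (accAt (delimit (bitEncode x) ++ bitEncode w) (pT.eval x.length) ↔ R (x, w) = true) := by
    intro w hw
    refine h2 _ _ _ _ (hR.outputsFun (x, w)) ?_
    rw [hpT]
    refine Nat.mul_le_mul_right _ (eval_mono _ ?_)
    have : (N487b59b3.toEncoding.encode (x, w)) = delimit (bitEncode x) ++ bitEncode w := rfl
    rw [this, hlen, hpm]
    omega
  rw [hLR, clCNF, h1 _ _ _ (by simp)]
  · constructor
    · rintro ⟨w, hw, hRw⟩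
      refine ⟨_, List.mem_map.2 ⟨w.length, List.mem_range.2 (by omega), rfl⟩,
        delimit (bitEncode x) ++ bitEncode w, ?_, (hacc w hw).2 hRw⟩
      rw [fixedPart_eq, matches_fixed]
      exact ⟨_, rfl, (matches_free _ _).2 ⟨w, rfl, rfl⟩⟩
    · rintro ⟨π, hπ, y, hy, ha⟩
      obtain ⟨l, hl, rfl⟩ := List.mem_map.1 hπ
      rw [fixedPart_eq, matches_fixed] at hy
      obtain ⟨y', rfl, hy'⟩ := hy
      obtain ⟨w, rfl, rfl⟩ := (matches_free _ _).1 hy'
      have hw : w.length ≤ p.eval x.length := by have := List.mem_range.1 hl; omega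
      exact ⟨w, hw, (hacc w hw).1 ha⟩
  · intro π hπ
    obtain ⟨l, hl, rfl⟩ := List.mem_map.1 hπ
    have hl' := List.mem_range.1 hl
    constructor
    · rw [fixedPart_eq]
      simp only [List.length_append, List.length_map, length_delimit, length_bitEncode_listBool,
        Polynomial.eval_add, hpm, List.length_flatMap, List.length_cons, List.length_nil,
        List.map_const', List.length_range, List.sum_replicate, smul_eq_mul]
      omega
    · intro s hs
      simp only [fixedPart, List.mem_append, List.mem_flatMap, List.mem_cons, List.not_mem_nil,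
        or_false] at hs
      rcases hs with (⟨b, -, h⟩ | h) | ⟨_, -, h⟩
      · cases b <;> simp [bitCode] at h <;> omega
      · omega
      · omega

end Pool.Agent.Shared.H27
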