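import Mathlib

set_option autoImplicit false

namespace Pool.Agent.Shared.H27

/-- A CNF formula: a list of clauses; a clause is a list of literals `(v, b)`, read as
variable `v` has value `b`. -/
abbrev CNF := List (List (ℕ × Bool))

/-- `ν` satisfies every clause of `φ`. -/
def Satisfies (ν : ℕ → Bool) (φ : CNF) : Prop := ∀ c ∈ φ, ∃ l ∈ c, ν l.1 = l.2

/-- Satisfiability of a CNF formula. -/
def Sat (φ : CNF) : Prop := ∃ ν : ℕ → Bool, Satisfies ν φ

theorem satisfies_append {ν : ℕ → Bool} {φ ψ : CNF} :
    Satisfies ν (φ ++ ψ) ↔ Satisfies ν φ ∧ Satisfies ν ψ := by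
  simp only [Satisfies, List.mem_append, or_imp, forall_and]

/-- One step of a row of cells under a local rule that also sees cell `0`. -/
def rowStep {D : Type} (Φ : Bool → D → D → D → D → D) (r : ℕ → D) : ℕ → D :=
  fun i => Φ (decide (i = 0)) (r 0) (r (i - 1)) (r i) (r (i + 1))

/-- selector variable of pattern number `l` -/
def selVar (l : ℕ) : ℕ := Nat.pair l 0

/-- variable: cell `i` at time `t` has value number `a` -/
def cellVar (t i a : ℕ) : ℕ := Nat.pair (Nat.pair t i) (a + 1)

theorem selVar_ne_cellVar (l t i a : ℕ) : selVar l ≠ cellVar t i a := by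
  simp [selVar, cellVar, Nat.pair_eq_pair]

theorem selVar_inj {l l' : ℕ} : selVar l = selVar l' ↔ l = l' := by
  simp [selVar, Nat.pair_eq_pair]

theorem cellVar_inj {t i a t' i' a' : ℕ} :
    cellVar t i a = cellVar t' i' a' ↔ t = t' ∧ i = i' ∧ a = a' := by
  simp [cellVar, Nat.pair_eq_pair, and_assoc]

/-- The tableau formula. `pats` is a list of patterns (entries `0` false, `1` true, `2` free,
a missing entry is read as `3`, blank). -/
def tabCNF (n : ℕ) (badInit : List (List ℕ)) (tab0 tab1 : List (ℕ × ℕ × ℕ × ℕ × ℕ))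
    (badAcc : List ℕ) (pats : List (List ℕ)) (T W : ℕ) : CNF :=
  [(List.range pats.length).map fun l => (selVar l, true)] ++
  ((List.range pats.length).flatMap fun l => (List.range (W + 1)).flatMap fun i =>
    (badInit.getD ((pats.getD l []).getD i 3) []).map fun a =>
      [(selVar l, false), (cellVar 0 i a, false)]) ++
  ((List.range (T + 1)).flatMap fun t => (List.range (W + 1)).map fun i =>
    (List.range n).map fun a => (cellVar t i a, true)) ++
  ((List.range T).flatMap fun t => (List.range W).flatMap fun i =>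
    (if i = 0 then tab0 else tab1).map fun e =>
      [(cellVar t 0 e.1, false), (cellVar t (i - 1) e.2.1, false), (cellVar t i e.2.2.1, false),
        (cellVar t (i + 1) e.2.2.2.1, false), (cellVar (t + 1) i e.2.2.2.2, false)]) ++
  badAcc.map fun a => [(cellVar T 0 a, false)]

/-- the symbols allowed by a pattern entry -/
def okSym : ℕ → Option Bool → Prop
  | 0, o => o = some false
  | 1, o => o = some true
  | 2, o => o ≠ none
  | _, o => o = none

/-- The word `y` matches the pattern `π`. -/
def Matches (π : List ℕ) (y : List Bool) : Prop := ∀ i, okSym (π.getD i 3) y[i]?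

theorem rowStep_iter_congr {D : Type} (Φ : Bool → D → D → D → D → D) (c : ℕ → ℕ → D)
    (r : ℕ → D) (T W : ℕ) (h0 : ∀ i ≤ W, c 0 i = r i)
    (hs : ∀ t < T, ∀ i < W, c (t + 1) i = rowStep Φ (c t) i) :
    ∀ t ≤ T, ∀ i, i + t ≤ W → c t i = (rowStep Φ)^[t] r i := by
  intro t
  induction t with
  | zero => intro _ i hi; simpa using h0 i (by omega)
  | succ t ih =>
    intro ht i hi
    rw [Function.iterate_succ_apply', hs t (by omega) i (by omega)]
    simp only [rowStep]
    rw [ih (by omega) 0 (by omega), ih (by omega) (i - 1) (by omega), ih (by omega) i (by omega),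
      ih (by omega) (i + 1) (by omega)]

theorem sat_tabCNF {D : Type} (Φ : Bool → D → D → D → D → D) (base : Option Bool → D)
    (acc : D → Prop) (n : ℕ) (val : ℕ → D)
    (badInit : List (List ℕ)) (tab0 tab1 : List (ℕ × ℕ × ℕ × ℕ × ℕ)) (badAcc : List ℕ)
    (hinit : ∀ s ≤ 3, ∀ a, a ∈ badInit.getD s [] ↔ a < n ∧ ¬ ∃ o, okSym s o ∧ val a = base o)
    (htab : ∀ z : Bool, ∀ e : ℕ × ℕ × ℕ × ℕ × ℕ, e ∈ (if z then tab0 else tab1) ↔
      e.1 < n ∧ e.2.1 < n ∧ e.2.2.1 < n ∧ e.2.2.2.1 < n ∧ e.2.2.2.2 < n ∧
        val e.2.2.2.2 ≠ Φ z (val e.1) (val e.2.1) (val e.2.2.1) (val e.2.2.2.1))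
    (hacc : ∀ a, a ∈ badAcc ↔ a < n ∧ ¬ acc (val a))
    (hcl : ∀ (y : List Bool) (t i : ℕ), ∃ a < n, val a = (rowStep Φ)^[t] (fun j => base y[j]?) i)
    (pats : List (List ℕ)) (T W : ℕ) (hTW : T ≤ W)
    (hp : ∀ π ∈ pats, π.length ≤ W + 1 ∧ ∀ s ∈ π, s ≤ 2) :
    Sat (tabCNF n badInit tab0 tab1 badAcc pats T W) ↔
      ∃ π ∈ pats, ∃ y, Matches π y ∧ acc ((rowStep Φ)^[T] (fun j => base y[j]?) 0) := by
  have hs3 : ∀ π ∈ pats, ∀ i, π.getD i 3 ≤ 3 := by
    intro π hπ i
    by_cases hi : i < π.length
    · rw [List.getD_eq_getElem _ _ hi]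
      exact ((hp π hπ).2 _ (List.getElem_mem hi)).trans (by norm_num)
    · rw [List.getD_eq_default _ _ (by omega)]
  constructor
  · rintro ⟨ν, hν⟩
    simp only [tabCNF, satisfies_append] at hν
    obtain ⟨⟨⟨⟨h1, h2⟩, h3⟩, h4⟩, h5⟩ := hν
    obtain ⟨l, hl, hsel⟩ : ∃ l < pats.length, ν (selVar l) = true := by
      obtain ⟨x, hx, hx2⟩ := h1 _ (List.mem_singleton_self _)
      simp only [List.mem_map, List.mem_range] at hx
      obtain ⟨l, hl, rfl⟩ := hx
      exact ⟨l, hl, hx2⟩
    have hch : ∀ t i, ∃ a, t ≤ T → i ≤ W → a < n ∧ ν (cellVar t i a) = true := by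
      intro t i
      by_cases h : t ≤ T ∧ i ≤ W
      · obtain ⟨x, hx, hx2⟩ := h3 ((List.range n).map fun a => (cellVar t i a, true)) (by
          simp only [List.mem_flatMap, List.mem_map, List.mem_range]
          exact ⟨t, by omega, i, by omega, rfl⟩)
        simp only [List.mem_map, List.mem_range] at hx
        obtain ⟨a, ha, rfl⟩ := hx
        exact ⟨a, fun _ _ => ⟨ha, hx2⟩⟩
      · exact ⟨0, fun h1 h2 => absurd ⟨h1, h2⟩ h⟩
    choose ch hch using hch
    have hπ : pats.getD l [] ∈ pats := by
      rw [List.getD_eq_getElem _ _ hl]; exact List.getElem_mem hl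
    set π := pats.getD l [] with hπdef
    have hsym : ∀ i, ∃ o, okSym (π.getD i 3) o ∧ (i ≤ W → val (ch 0 i) = base o) := by
      intro i
      by_cases hi : i ≤ W
      · obtain ⟨ha, hνa⟩ := hch 0 i (Nat.zero_le _) hi
        by_contra hcon
        have hbad : ch 0 i ∈ badInit.getD (π.getD i 3) [] := by
          rw [hinit _ (hs3 π hπ i)]
          refine ⟨ha, ?_⟩
          rintro ⟨o, ho, ho2⟩
          exact hcon ⟨o, ho, fun _ => ho2⟩
        obtain ⟨x, hx, hx2⟩ := h2 [(selVar l, false), (cellVar 0 i (ch 0 i), false)] (by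
          simp only [List.mem_flatMap, List.mem_map, List.mem_range]
          exact ⟨l, hl, i, by omega, ch 0 i, hbad, rfl⟩)
        simp only [List.mem_cons, List.not_mem_nil, or_false] at hx
        rcases hx with rfl | rfl
        · simp [hsel] at hx2
        · simp [hνa] at hx2
      · refine ⟨none, ?_, fun h => absurd h hi⟩
        rw [List.getD_eq_default _ _ (by have := (hp π hπ).1; omega)]
        simp [okSym]
    choose o ho hov using hsym
    have hnone : ∀ i, o i = none ↔ π.length ≤ i := by
      intro i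
      constructor
      · intro h
        by_contra hi
        push Not at hi
        have h1 := ho i
        rw [List.getD_eq_getElem _ _ hi, h] at h1
        have h2 := (hp π hπ).2 _ (List.getElem_mem hi)
        generalize π[i] = s at h1 h2
        interval_cases s <;> simp [okSym] at h1
      · intro h
        have h1 := ho i
        rw [List.getD_eq_default _ _ h] at h1
        simpa [okSym] using h1
    let y : List Bool := (List.range π.length).map fun i => (o i).getD false
    have hy : ∀ i, y[i]? = o i := by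
      intro i
      by_cases hi : i < π.length
      · have : o i ≠ none := fun h => by have := (hnone i).1 h; omega
        obtain ⟨b, hb⟩ := Option.ne_none_iff_exists'.1 this
        simp [y, hi, hb]
      · rw [(hnone i).2 (by omega)]
        simp [y]; omega
    refine ⟨π, hπ, y, fun i => by rw [hy]; exact ho i, ?_⟩
    have key := rowStep_iter_congr Φ (fun t i => val (ch t i)) (fun j => base y[j]?) T W
      (fun i hi => by simp only [hy]; exact hov i hi) (by
        intro t ht i hi
        by_contra hcon
        obtain ⟨x, hx, hx2⟩ := h4 [(cellVar t 0 (ch t 0), false),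
          (cellVar t (i - 1) (ch t (i - 1)), false), (cellVar t i (ch t i), false),
          (cellVar t (i + 1) (ch t (i + 1)), false), (cellVar (t + 1) i (ch (t + 1) i), false)] (by
          simp only [List.mem_flatMap, List.mem_map, List.mem_range]
          refine ⟨t, ht, i, hi, (ch t 0, ch t (i - 1), ch t i, ch t (i + 1), ch (t + 1) i), ?_, rfl⟩
          have := (htab (decide (i = 0))
            (ch t 0, ch t (i - 1), ch t i, ch t (i + 1), ch (t + 1) i)).2
            ⟨(hch _ _ (by omega) (by omega)).1, (hch _ _ (by omega) (by omega)).1,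
              (hch _ _ (by omega) (by omega)).1, (hch _ _ (by omega) (by omega)).1,
              (hch _ _ (by omega) (by omega)).1, hcon⟩
          simpa using this)
        simp only [List.mem_cons, List.not_mem_nil, or_false] at hx
        rcases hx with rfl | rfl | rfl | rfl | rfl <;>
          · rw [(hch _ _ (by omega) (by omega)).2] at hx2
            simp at hx2) T le_rfl 0 (by omega)
    rw [← key]
    by_contra hcon
    obtain ⟨x, hx, hx2⟩ := h5 [(cellVar T 0 (ch T 0), false)] (by
      simp only [List.mem_map]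
      exact ⟨ch T 0, (hacc _).2 ⟨(hch _ _ le_rfl (by omega)).1, hcon⟩, rfl⟩)
    simp only [List.mem_cons, List.not_mem_nil, or_false] at hx
    subst hx
    rw [(hch _ _ le_rfl (by omega)).2] at hx2
    simp at hx2
  · rintro ⟨π, hπ, y, hy, hac⟩
    obtain ⟨l, hl, hlπ⟩ := List.getElem_of_mem hπ
    classical
    set row : ℕ → ℕ → D := fun t => (rowStep Φ)^[t] (fun j => base y[j]?) with hrow
    let ν : ℕ → Bool := fun v =>
      decide (v = selVar l ∨ ∃ t i a, v = cellVar t i a ∧ val a = row t i)
    have hν1 : ∀ l', ν (selVar l') = true ↔ l' = l := by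
      intro l'
      simp [ν, selVar_inj, selVar_ne_cellVar]
    have hν2 : ∀ t i a, ν (cellVar t i a) = true ↔ val a = row t i := by
      intro t i a
      simp only [ν, decide_eq_true_eq, (selVar_ne_cellVar _ _ _ _).symm, false_or, cellVar_inj]
      constructor
      · rintro ⟨t', i', a', ⟨rfl, rfl, rfl⟩, h⟩; exact h
      · intro h; exact ⟨t, i, a, ⟨rfl, rfl, rfl⟩, h⟩
    have hν2' : ∀ t i a, ν (cellVar t i a) = false ↔ val a ≠ row t i := by
      intro t i a
      rw [← Bool.not_eq_true, hν2]
    refine ⟨ν, ?_⟩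
    simp only [tabCNF, satisfies_append]
    refine ⟨⟨⟨⟨?_, ?_⟩, ?_⟩, ?_⟩, ?_⟩
    · intro c hc
      rw [List.mem_singleton] at hc
      subst hc
      exact ⟨(selVar l, true), List.mem_map.2 ⟨l, List.mem_range.2 hl, rfl⟩, (hν1 l).2 rfl⟩
    · intro c hc
      simp only [List.mem_flatMap, List.mem_map, List.mem_range] at hc
      obtain ⟨l', hl', i, hi, a, ha, rfl⟩ := hc
      by_cases h : l' = l
      · subst h
        refine ⟨(cellVar 0 i a, false), by simp, (hν2' _ _ _).2 ?_⟩
        have hg : pats.getD l' [] = π := by rw [List.getD_eq_getElem _ _ hl, hlπ]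
        rw [hg, hinit _ (hs3 π hπ i)] at ha
        intro hv
        exact ha.2 ⟨_, hy i, by simpa [hrow] using hv⟩
      · refine ⟨(selVar l', false), by simp, ?_⟩
        rw [← Bool.not_eq_true, hν1]; exact h
    · intro c hc
      simp only [List.mem_flatMap, List.mem_map, List.mem_range] at hc
      obtain ⟨t, ht, i, hi, rfl⟩ := hc
      obtain ⟨a, ha, hv⟩ := hcl y t i
      exact ⟨(cellVar t i a, true), List.mem_map.2 ⟨a, List.mem_range.2 ha, rfl⟩,
        (hν2 _ _ _).2 hv⟩
    · intro c hc
      simp only [List.mem_flatMap, List.mem_map, List.mem_range] at hc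
      obtain ⟨t, ht, i, hi, e, he, rfl⟩ := hc
      have he' := (htab (decide (i = 0)) e).1 (by simpa using he)
      by_contra hcon
      simp only [List.mem_cons, List.not_mem_nil, or_false, exists_eq_or_imp, exists_eq_left,
        not_or, hν2', not_not] at hcon
      obtain ⟨e1, e2, e3, e4, e5⟩ := hcon
      apply he'.2.2.2.2.2
      rw [e1, e2, e3, e4, e5]
      simp only [hrow, Function.iterate_succ_apply', rowStep]
    · intro c hc
      simp only [List.mem_map] at hc
      obtain ⟨a, ha, rfl⟩ := hc
      refine ⟨(cellVar T 0 a, false), by simp, (hν2' _ _ _).2 ?_⟩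
      intro hv
      exact ((hacc a).1 ha).2 (hv ▸ hac)

end Pool.Agent.Shared.H27
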